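import Pool.Agent.Lib_helper58.Orbi.Defs

open NumberField IsDedekindDomain WithZero
open scoped LinearAlgebra.Projectivization

namespace OrbiP1

section

variable {k : Type} [Field k] [NumberField k]

omit [NumberField k] in
theorem wedge_smul_left (c : k) (x y : Fin 2 → k) : wedge (c • x) y = c * wedge x y := by
  simp only [wedge, Pi.smul_apply, smul_eq_mul]; ring

omit [NumberField k] in
theorem wedge_smul_right (c : k) (x y : Fin 2 → k) : wedge x (c • y) = c * wedge x y := by
  simp only [wedge, Pi.smul_apply, smul_eq_mul]; ring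

omit [NumberField k] in
theorem wedge_comm (x y : Fin 2 → k) : wedge x y = -wedge y x := by
  simp only [wedge]; ring

omit [NumberField k] in
theorem ne_zero_of_wedge_left {x y : Fin 2 → k} (h : wedge x y ≠ 0) : x ≠ 0 := by
  rintro rfl; exact h (by simp [wedge])

omit [NumberField k] in
theorem ne_zero_of_wedge_right {x y : Fin 2 → k} (h : wedge x y ≠ 0) : y ≠ 0 := by
  rintro rfl; exact h (by simp [wedge])

omit [NumberField k] in
theorem mk_eq_iff {x y : Fin 2 → k} (hx : x ≠ 0) (hy : y ≠ 0) :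
    (Projectivization.mk k x hx = Projectivization.mk k y hy) ↔ wedge x y = 0 := by
  rw [Projectivization.mk_eq_mk_iff']
  constructor
  · rintro ⟨a, rfl⟩
    rw [wedge_smul_left]
    simp only [wedge]; ring
  · intro h
    simp only [wedge] at h
    by_cases h0 : y 0 = 0
    · have h1 : y 1 ≠ 0 := by
        intro h1
        apply hy
        funext i
        fin_cases i
        · exact h0
        · exact h1
      refine ⟨x 1 / y 1, ?_⟩
      have h2 : x 0 = 0 := by
        rw [h0] at h
        have : x 0 * y 1 = 0 := by linear_combination h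
        exact (mul_eq_zero.1 this).resolve_right h1
      funext i
      fin_cases i
      · simp [h0, h2]
      · simp [div_mul_cancel₀ _ h1]
    · refine ⟨x 0 / y 0, ?_⟩
      funext i
      fin_cases i
      · simp [div_mul_cancel₀ _ h0]
      · simp only [Pi.smul_apply, smul_eq_mul, Fin.mk_one, Fin.isValue]
        field_simp
        linear_combination h

theorem vmax_ne_zero (v : HeightOneSpectrum (𝓞 k)) {x : Fin 2 → k} (hx : x ≠ 0) :
    vmax v x ≠ 0 := by
  intro h
  apply hx
  have h0 : v.valuation k (x 0) ≤ 0 := by rw [← h]; exact le_max_left _ _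
  have h1 : v.valuation k (x 1) ≤ 0 := by rw [← h]; exact le_max_right _ _
  funext i
  fin_cases i
  · exact (Valuation.zero_iff _).1 (le_zero_iff.1 h0)
  · exact (Valuation.zero_iff _).1 (le_zero_iff.1 h1)

theorem vmax_smul (v : HeightOneSpectrum (𝓞 k)) (c : k) (x : Fin 2 → k) :
    vmax v (c • x) = v.valuation k c * vmax v x := by
  simp only [vmax, Pi.smul_apply, smul_eq_mul, map_mul]
  exact ((show Monotone (fun z : ℤᵐ⁰ => v.valuation k c * z) from
    fun a b h => by dsimp only; gcongr).map_max (a := v.valuation k (x 0))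
      (b := v.valuation k (x 1))).symm

theorem ivec_smul (v : HeightOneSpectrum (𝓞 k)) {c d : k} (hc : c ≠ 0) (hd : d ≠ 0)
    {x y : Fin 2 → k} (h : wedge x y ≠ 0) : ivec v (c • x) (d • y) = ivec v x y := by
  have hx := ne_zero_of_wedge_left h
  have hy := ne_zero_of_wedge_right h
  have hvc : v.valuation k c ≠ 0 := (Valuation.ne_zero_iff _).2 hc
  have hvd : v.valuation k d ≠ 0 := (Valuation.ne_zero_iff _).2 hd
  have hvw : v.valuation k (wedge x y) ≠ 0 := (Valuation.ne_zero_iff _).2 h
  simp only [ivec, wedge_smul_left, wedge_smul_right, vmax_smul, map_mul]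
  rw [log_mul hvc (vmax_ne_zero v hx), log_mul hvd (vmax_ne_zero v hy)]
  first
    | rw [log_mul hvd (mul_ne_zero hvc hvw), log_mul hvc hvw]
    | rw [log_mul hvc (mul_ne_zero hvd hvw), log_mul hvd hvw]
  ring

theorem inter_mk (v : HeightOneSpectrum (𝓞 k)) {x y : Fin 2 → k} (h : wedge x y ≠ 0)
    (hx : x ≠ 0) (hy : y ≠ 0) :
    inter v (Projectivization.mk k x hx) (Projectivization.mk k y hy) = ivec v x y := by
  obtain ⟨a, ha⟩ := Projectivization.exists_smul_eq_mk_rep k x hx
  obtain ⟨b, hb⟩ := Projectivization.exists_smul_eq_mk_rep k y hy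
  rw [inter, ← ha, ← hb]
  exact ivec_smul v a.ne_zero b.ne_zero h

theorem vmax_pos (v : HeightOneSpectrum (𝓞 k)) {x : Fin 2 → k} (hx : x ≠ 0) :
    0 < vmax v x := zero_lt_iff.2 (vmax_ne_zero v hx)

theorem val_wedge_le (v : HeightOneSpectrum (𝓞 k)) (x y : Fin 2 → k) :
    v.valuation k (wedge x y) ≤ vmax v x * vmax v y := by
  refine (Valuation.map_sub _ _ _).trans (max_le ?_ ?_)
  · rw [map_mul]
    exact mul_le_mul' (le_max_left _ _) (le_max_right _ _)
  · rw [map_mul]
    exact mul_le_mul' (le_max_right _ _) (le_max_left _ _)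

theorem ivec_nonneg (v : HeightOneSpectrum (𝓞 k)) {x y : Fin 2 → k} (h : wedge x y ≠ 0) :
    0 ≤ ivec v x y := by
  have hx := ne_zero_of_wedge_left h
  have hy := ne_zero_of_wedge_right h
  have hvw : v.valuation k (wedge x y) ≠ 0 := (Valuation.ne_zero_iff _).2 h
  have h1 := val_wedge_le v x y
  have h2 : log (v.valuation k (wedge x y)) ≤ log (vmax v x * vmax v y) :=
    (log_le_log hvw (mul_ne_zero (vmax_ne_zero v hx) (vmax_ne_zero v hy))).2 h1
  rw [log_mul (vmax_ne_zero v hx) (vmax_ne_zero v hy)] at h2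
  simp only [ivec]
  omega

/-- The orbifold condition for vectors. -/
def Good (M : Set (HeightOneSpectrum (𝓞 k))) {r : ℕ} (p : Fin r → Fin 2 → k) (t : Fin r → ℕ)
    (x : Fin 2 → k) : Prop :=
  (∀ i, wedge x (p i) ≠ 0) ∧ ∀ v : HeightOneSpectrum (𝓞 k), v ∉ M → ∀ i,
    ivec v x (p i) = 0 ∨ (t i : ℤ) ≤ ivec v x (p i)

theorem mem_orb_iff (M : Set (HeightOneSpectrum (𝓞 k))) {r : ℕ} (p : Fin r → Fin 2 → k)
    (hp : ∀ i, p i ≠ 0) (t : Fin r → ℕ) (x : Fin 2 → k) (hx : x ≠ 0) :
    Projectivization.mk k x hx ∈ orbPoints M (fun i => Projectivization.mk k (p i) (hp i))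
      (fun i => (t i : ℕ∞)) ↔ Good M p t x := by
  simp only [orbPoints, Set.mem_ofPred_eq, Good, ne_eq, mk_eq_iff]
  constructor
  · rintro ⟨h1, h2⟩
    refine ⟨h1, fun v hv i => ?_⟩
    have h3 := h2 v hv i
    rw [inter_mk v (h1 i)] at h3
    rcases h3 with h3 | ⟨n, h4, h5⟩
    · exact Or.inl h3
    · right
      have : t i = n := by exact_mod_cast h4
      rw [this]; exact h5
  · rintro ⟨h1, h2⟩
    refine ⟨h1, fun v hv i => ?_⟩
    rw [inter_mk v (h1 i)]
    rcases h2 v hv i with h3 | h3
    · exact Or.inl h3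
    · exact Or.inr ⟨t i, rfl, h3⟩

theorem mem_orb_iff' (M : Set (HeightOneSpectrum (𝓞 k))) {r : ℕ} (P : Fin r → P1 k)
    (t : Fin r → ℕ) (x : Fin 2 → k) (hx : x ≠ 0) :
    Projectivization.mk k x hx ∈ orbPoints M P (fun i => (t i : ℕ∞)) ↔
      Good M (fun i => (P i).rep) t x := by
  have := mem_orb_iff M (fun i => (P i).rep) (fun i => (P i).rep_nonzero) t x hx
  simp only [Projectivization.mk_rep] at this
  exact this

/-- Monotonicity. -/
theorem orb_mono (M : Set (HeightOneSpectrum (𝓞 k))) {r s : ℕ} (P : Fin r → P1 k) (m : Fin r → ℕ∞)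
    (j : Fin s → Fin r) (t : Fin s → ℕ) (h : ∀ a, (t a : ℕ∞) ≤ m (j a)) :
    orbPoints M P m ⊆ orbPoints M (P ∘ j) (fun a => (t a : ℕ∞)) := by
  rintro X ⟨h1, h2⟩
  refine ⟨fun a => h1 (j a), fun v hv a => ?_⟩
  rcases h2 v hv (j a) with h3 | ⟨n, h4, h5⟩
  · exact Or.inl h3
  · right
    refine ⟨t a, rfl, le_trans ?_ h5⟩
    have := h a
    rw [h4] at this
    exact_mod_cast this

/-! ### Linear maps with good reduction -/

/-- A `2 × 2` matrix acting on vectors. -/
def gl (a b c d : k) (x : Fin 2 → k) : Fin 2 → k := ![a * x 0 + b * x 1, c * x 0 + d * x 1]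

omit [NumberField k] in
theorem wedge_gl (a b c d : k) (x y : Fin 2 → k) :
    wedge (gl a b c d x) (gl a b c d y) = (a * d - b * c) * wedge x y := by
  simp only [wedge, gl, Matrix.cons_val_zero, Matrix.cons_val_one]
  ring

theorem vmax_gl_le (v : HeightOneSpectrum (𝓞 k)) {a b c d : k} (ha : v.valuation k a ≤ 1)
    (hb : v.valuation k b ≤ 1) (hc : v.valuation k c ≤ 1) (hd : v.valuation k d ≤ 1)
    (x : Fin 2 → k) : vmax v (gl a b c d x) ≤ vmax v x := by
  have key : ∀ e f : k, v.valuation k e ≤ 1 → v.valuation k f ≤ 1 →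
      v.valuation k (e * x 0 + f * x 1) ≤ vmax v x := by
    intro e f he hf
    refine (Valuation.map_add _ _ _).trans (max_le ?_ ?_)
    · rw [map_mul]
      exact (mul_le_of_le_one_left' he).trans (le_max_left _ _)
    · rw [map_mul]
      exact (mul_le_of_le_one_left' hf).trans (le_max_right _ _)
  exact max_le (key a b ha hb) (key c d hc hd)

theorem vmax_gl (v : HeightOneSpectrum (𝓞 k)) {a b c d : k} (ha : v.valuation k a ≤ 1)
    (hb : v.valuation k b ≤ 1) (hc : v.valuation k c ≤ 1) (hd : v.valuation k d ≤ 1)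
    (hD : v.valuation k (a * d - b * c) = 1) (x : Fin 2 → k) :
    vmax v (gl a b c d x) = vmax v x := by
  apply le_antisymm (vmax_gl_le v ha hb hc hd x)
  have h1 : gl d (-b) (-c) a (gl a b c d x) = (a * d - b * c) • x := by
    funext i
    fin_cases i
    · simp only [gl, Matrix.cons_val_zero, Matrix.cons_val_one, Fin.zero_eta, Pi.smul_apply,
        smul_eq_mul]
      ring
    · simp only [gl, Matrix.cons_val_zero, Matrix.cons_val_one, Fin.mk_one, Pi.smul_apply,
        smul_eq_mul]
      ring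
  have h2 := vmax_gl_le v hd (by rwa [Valuation.map_neg]) (by rwa [Valuation.map_neg]) ha
    (gl a b c d x) (b := -b) (c := -c)
  rw [h1, vmax_smul, hD, one_mul] at h2
  exact h2

theorem ivec_gl (v : HeightOneSpectrum (𝓞 k)) {a b c d : k} (ha : v.valuation k a ≤ 1)
    (hb : v.valuation k b ≤ 1) (hc : v.valuation k c ≤ 1) (hd : v.valuation k d ≤ 1)
    (hD : v.valuation k (a * d - b * c) = 1) (x y : Fin 2 → k) :
    ivec v (gl a b c d x) (gl a b c d y) = ivec v x y := by
  simp only [ivec, vmax_gl v ha hb hc hd hD, wedge_gl, map_mul, hD, one_mul]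

/-- A nonzero element is a unit outside finitely many places. -/
theorem finite_ne_one {a : k} (ha : a ≠ 0) :
    {v : HeightOneSpectrum (𝓞 k) | v.valuation k a ≠ 1}.Finite := by
  obtain ⟨n, d, hd, rfl⟩ := IsFractionRing.div_surjective (A := 𝓞 k) a
  have hd0 : d ≠ 0 := nonZeroDivisors.ne_zero hd
  have hn0 : n ≠ 0 := by
    rintro rfl
    exact ha (by simp)
  have h1 := Ideal.finite_factors (I := Ideal.span {n})
    (by rwa [Ne, Ideal.zero_eq_bot, Ideal.span_singleton_eq_bot])
  have h2 := Ideal.finite_factors (I := Ideal.span {d})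
    (by rwa [Ne, Ideal.zero_eq_bot, Ideal.span_singleton_eq_bot])
  refine (h1.union h2).subset ?_
  intro v hv
  by_contra hc
  simp only [Set.mem_union, Set.mem_ofPred_eq, not_or] at hc
  have key : ∀ c : 𝓞 k, ¬ v.asIdeal ∣ Ideal.span {c} → v.valuation k (algebraMap (𝓞 k) k c) = 1 := by
    intro c hcc
    apply le_antisymm (v.valuation_le_one c)
    rw [← not_lt, HeightOneSpectrum.valuation_lt_one_iff_dvd]
    exact hcc
  apply hv
  show v.valuation k _ = 1
  rw [map_div₀, key n hc.1, key d hc.2, div_one]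

/-- Only finitely many places are bad for a given element. -/
theorem finite_bad (a : k) : {v : HeightOneSpectrum (𝓞 k) | ¬ v.valuation k a ≤ 1}.Finite := by
  by_cases ha : a = 0
  · convert Set.finite_empty
    ext v
    simp [ha]
  · refine (finite_ne_one ha).subset ?_
    intro v hv h
    exact hv (le_of_eq h)

/-! ### Transformations of the projective line -/

/-- The map of the projective line given by a map of vectors. -/
noncomputable def pmap {k' : Type} [Field k'] (F : (Fin 2 → k) → (Fin 2 → k'))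
    (hF : ∀ x, x ≠ 0 → F x ≠ 0) (X : P1 k) : P1 k' :=
  Projectivization.mk k' (F X.rep) (hF _ X.rep_nonzero)

omit [NumberField k] in
theorem pmap_injective {k' : Type} [Field k'] (F : (Fin 2 → k) → (Fin 2 → k'))
    (hF : ∀ x, x ≠ 0 → F x ≠ 0) (hw : ∀ x y, wedge (F x) (F y) = 0 → wedge x y = 0) :
    Function.Injective (pmap F hF) := by
  intro X Y h
  rw [pmap, pmap, mk_eq_iff] at h
  have h2 := hw _ _ h
  rw [← mk_eq_iff X.rep_nonzero Y.rep_nonzero, Projectivization.mk_rep, Projectivization.mk_rep] at h2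
  exact h2

omit [NumberField k] in
theorem gl_ne_zero {a b c d : k} (hD : a * d - b * c ≠ 0) (x : Fin 2 → k) (hx : x ≠ 0) :
    gl a b c d x ≠ 0 := by
  intro h
  apply hx
  have h1 : gl d (-b) (-c) a (gl a b c d x) = (a * d - b * c) • x := by
    funext i
    fin_cases i
    · simp only [gl, Matrix.cons_val_zero, Matrix.cons_val_one, Fin.zero_eta, Pi.smul_apply,
        smul_eq_mul]
      ring
    · simp only [gl, Matrix.cons_val_zero, Matrix.cons_val_one, Fin.mk_one, Pi.smul_apply,
        smul_eq_mul]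
      ring
  rw [h] at h1
  have h2 : (a * d - b * c) • x = 0 := by
    rw [← h1]
    funext i
    fin_cases i <;> simp [gl]
  exact (smul_eq_zero.1 h2).resolve_left hD

/-- Transport of finiteness along a projective transformation. -/
theorem finite_of_gl {a b c d : k} (hD : a * d - b * c ≠ 0) {M : Set (HeightOneSpectrum (𝓞 k))}
    {r : ℕ} (P : Fin r → P1 k) (t : Fin r → ℕ)
    (h : (orbPoints (M ∪ ({v | ¬ v.valuation k a ≤ 1} ∪ {v | ¬ v.valuation k b ≤ 1} ∪
      ({v | ¬ v.valuation k c ≤ 1} ∪ {v | ¬ v.valuation k d ≤ 1}) ∪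
      {v | v.valuation k (a * d - b * c) ≠ 1}))
      (fun i => pmap (gl a b c d) (gl_ne_zero hD) (P i)) (fun i => (t i : ℕ∞))).Finite) :
    (orbPoints M P (fun i => (t i : ℕ∞))).Finite := by
  refine Set.Finite.of_injOn (f := pmap (gl a b c d) (gl_ne_zero hD)) ?_
    (pmap_injective _ _ (fun x y hxy => ?_)).injOn h
  · intro X hX
    rw [← Projectivization.mk_rep X, mem_orb_iff'] at hX
    rw [pmap]
    simp only [pmap]
    rw [mem_orb_iff]
    obtain ⟨h1, h2⟩ := hX
    refine ⟨fun i => ?_, fun v hv i => ?_⟩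
    · rw [wedge_gl]
      exact mul_ne_zero hD (h1 i)
    · simp only [Set.mem_union, Set.mem_ofPred_eq, not_or, not_not] at hv
      obtain ⟨hM, ⟨⟨ha, hb⟩, hc, hd⟩, hDv⟩ := hv
      rw [ivec_gl v ha hb hc hd hDv]
      exact h2 v hM i
  · rw [wedge_gl] at hxy
    exact (mul_eq_zero.1 hxy).resolve_left hD

end

end OrbiP1
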