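import Mathlib

/-!
# Orbifold rational points on the projective line over a number field: definitions
-/

open NumberField IsDedekindDomain WithZero
open scoped LinearAlgebra.Projectivization

namespace OrbiP1

/-- The projective line over `k`. -/
abbrev P1 (k : Type) [Field k] : Type := ℙ k (Fin 2 → k)

section

variable {k : Type} [Field k]

/-- The point `[a : 1]`. -/
noncomputable def pt (a : k) : P1 k :=
  Projectivization.mk k ![a, 1] (fun h => one_ne_zero (α := k) (by simpa using congrFun h 1))

/-- The point `[1 : 0]`. -/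
noncomputable def inf : P1 k :=
  Projectivization.mk k ![1, 0] (fun h => one_ne_zero (α := k) (by simpa using congrFun h 0))

end

section

variable {k : Type} [Field k] [NumberField k]

/-- `exp (-min(v(x₀), v(x₁)))` for the normalised additive valuation `v`. -/
noncomputable def vmax (v : HeightOneSpectrum (𝓞 k)) (x : Fin 2 → k) : ℤᵐ⁰ :=
  max (v.valuation k (x 0)) (v.valuation k (x 1))

/-- `x₀ y₁ - x₁ y₀`. -/
def wedge (x y : Fin 2 → k) : k := x 0 * y 1 - x 1 * y 0

/-- `v(x₀ y₁ - x₁ y₀) - min(v(x₀), v(x₁)) - min(v(y₀), v(y₁))`. -/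
noncomputable def ivec (v : HeightOneSpectrum (𝓞 k)) (x y : Fin 2 → k) : ℤ :=
  -log (v.valuation k (wedge x y)) + log (vmax v x) + log (vmax v y)

/-- The local intersection number `i_v(P, Q)` of two points of the projective line. -/
noncomputable def inter (v : HeightOneSpectrum (𝓞 k)) (P Q : P1 k) : ℤ := ivec v P.rep Q.rep

/-- The set of orbifold rational points of `(P¹ / ∑ (1 - 1/m_i) P_i)` over `k`, with the finite
places in `M` disregarded. -/
def orbPoints (M : Set (HeightOneSpectrum (𝓞 k))) {r : ℕ} (P : Fin r → P1 k) (m : Fin r → ℕ∞) :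
    Set (P1 k) :=
  {X | (∀ i, X ≠ P i) ∧ ∀ v : HeightOneSpectrum (𝓞 k), v ∉ M → ∀ i,
    inter v X (P i) = 0 ∨ ∃ n : ℕ, m i = n ∧ (n : ℤ) ≤ inter v X (P i)}

end

/-- `1 - 1/m`, with the value `1` for `m = ∞`. -/
noncomputable def wt (m : ℕ∞) : ℚ := if m = ⊤ then 1 else 1 - 1 / (m.toNat : ℚ)

/-- Campana's orbifold Mordell conjecture for the projective line. -/
def OrbifoldMordell : Prop :=
  ∀ (k : Type) [Field k] [NumberField k] (M : Set (HeightOneSpectrum (𝓞 k))), M.Finite →
    ∀ (r : ℕ) (P : Fin r → P1 k) (m : Fin r → ℕ∞), Function.Injective P → (∀ i, 2 ≤ m i) →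
      0 < -2 + ∑ i, wt (m i) → (orbPoints M P m).Finite

end OrbiP1
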