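import Pool.Agent.Lib_helper58.Orbi.Basic

open NumberField IsDedekindDomain WithZero
open scoped LinearAlgebra.Projectivization

namespace OrbiP1

section

variable {k : Type} [Field k] [NumberField k]

/-- A finite extension which is highly ramified over the places in a finite set. -/
theorem exists_ramified (M : Set (HeightOneSpectrum (𝓞 k))) (hM : M.Finite) (T : ℕ) :
    ∃ (k' : Type) (_ : Field k') (_ : NumberField k') (_ : Algebra k k'),
      ∀ w : HeightOneSpectrum (𝓞 k'), ∃ (v : HeightOneSpectrum (𝓞 k)) (e : ℕ), 1 ≤ e ∧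
        (∀ x : k, w.valuation k' (algebraMap k k' x) = v.valuation k x ^ e) ∧ (v ∈ M → T ≤ e) := by
  classical
  set N : 𝓞 k := ∏ v ∈ hM.toFinset, (Ideal.absNorm v.asIdeal : 𝓞 k) with hN
  have hN0 : N ≠ 0 := by
    rw [hN, Finset.prod_ne_zero_iff]
    intro v _
    rw [Nat.cast_ne_zero]
    exact (Ideal.absNorm_ne_zero_iff_mem_nonZeroDivisors).2 (mem_nonZeroDivisors_of_ne_zero v.ne_bot)
  have hNM : ∀ v ∈ M, N ∈ v.asIdeal := by
    intro v hv
    exact Ideal.mem_of_dvd _ (Finset.dvd_prod_of_mem _ (hM.mem_toFinset.2 hv)) (Ideal.absNorm_mem _)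
  have hNk : (N : k) ≠ 0 := by simpa using hN0
  set A : HeightOneSpectrum (𝓞 k) → ℤ := fun v => -log (v.valuation k (N : k)) with hA
  have hA1 : ∀ v ∈ M, 1 ≤ A v := by
    intro v hv
    have h1 : v.valuation k (algebraMap (𝓞 k) k N) < 1 :=
      (HeightOneSpectrum.valuation_lt_one_iff_mem v N).2 (hNM v hv)
    have h2 : v.valuation k (N : k) ≠ 0 := (Valuation.ne_zero_iff _).2 hNk
    have h3 : log (v.valuation k (N : k)) < log (1 : ℤᵐ⁰) := (log_lt_log h2 one_ne_zero).2 h1
    rw [log_one] at h3
    simp only [hA]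
    omega
  set B : ℕ := ∑ v ∈ hM.toFinset, (A v).toNat with hB
  have hAB : ∀ v ∈ M, A v ≤ B := by
    intro v hv
    have h1 : (A v).toNat ≤ B :=
      Finset.single_le_sum (f := fun v => (A v).toNat) (fun _ _ => Nat.zero_le _)
        (hM.mem_toFinset.2 hv)
    have := hA1 v hv
    omega
  set n : ℕ := T * B + 1 with hn
  obtain ⟨α, hα⟩ := IsAlgClosed.exists_pow_nat_eq (algebraMap k (AlgebraicClosure k) (N : k))
    (show 0 < n by omega)
  have hint : IsIntegral k α := Algebra.IsIntegral.isIntegral α
  have : FiniteDimensional k (IntermediateField.adjoin k {α}) :=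
    IntermediateField.adjoin.finiteDimensional hint
  have : NumberField (IntermediateField.adjoin k {α}) :=
    NumberField.of_module_finite k (IntermediateField.adjoin k {α})
  refine ⟨IntermediateField.adjoin k {α}, inferInstance, inferInstance, inferInstance, ?_⟩
  intro w
  set β : IntermediateField.adjoin k {α} := ⟨α, IntermediateField.mem_adjoin_simple_self k α⟩ with hβ
  have hβn : β ^ n = algebraMap k (IntermediateField.adjoin k {α}) (N : k) := by
    apply Subtype.ext
    rw [hβ]
    simpa using hα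
  set v := w.under (𝓞 k) with hv
  have : w.asIdeal.LiesOver v.asIdeal := by
    rw [hv]
    exact Ideal.over_under _
  set e := v.asIdeal.ramificationIdx' w.asIdeal with he
  have he0 : e ≠ 0 := Ideal.IsDedekindDomain.ramificationIdx'_ne_zero_of_liesOver w.asIdeal v.ne_bot
  have hval : ∀ x : k, w.valuation (IntermediateField.adjoin k {α})
      (algebraMap k (IntermediateField.adjoin k {α}) x) = v.valuation k x ^ e := by
    intro x
    exact (HeightOneSpectrum.valuation_liesOver (IntermediateField.adjoin k {α}) v w x).symm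
  refine ⟨v, e, by omega, hval, ?_⟩
  intro hvM
  have h1 : w.valuation (IntermediateField.adjoin k {α}) β ^ n = v.valuation k (N : k) ^ e := by
    rw [← map_pow, hβn, hval]
  have hβ0 : β ≠ 0 := by
    intro h
    rw [h, zero_pow (by omega)] at hβn
    exact hNk ((map_eq_zero _).1 hβn.symm)
  have hwβ : w.valuation (IntermediateField.adjoin k {α}) β ≠ 0 := (Valuation.ne_zero_iff _).2 hβ0
  have h2 := congrArg log h1
  rw [log_pow, log_pow] at h2
  simp only [nsmul_eq_mul] at h2
  have h3 : log (v.valuation k (N : k)) = -A v := by simp only [hA]; ring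
  rw [h3] at h2
  set b := log (w.valuation (IntermediateField.adjoin k {α}) β) with hb
  have hA1v := hA1 v hvM
  have hABv := hAB v hvM
  have hbneg : b ≤ -1 := by
    by_contra hcon
    have hb0 : 0 ≤ b := by omega
    have h4 : (0 : ℤ) ≤ n * b := mul_nonneg (by positivity) hb0
    have h5 : (e : ℤ) * -A v < 0 := by
      have : (0 : ℤ) < e := by exact_mod_cast Nat.pos_of_ne_zero he0
      nlinarith
    omega
  have h6 : (n : ℤ) ≤ e * A v := by nlinarith
  by_contra hcon
  have h7 : (e : ℤ) ≤ T - 1 := by omega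
  have h8 : (e : ℤ) * A v ≤ T * B := by
    have ha : (0 : ℤ) ≤ e := by positivity
    have hb' : (0 : ℤ) ≤ T := by positivity
    calc (e : ℤ) * A v ≤ T * A v := by
          apply mul_le_mul_of_nonneg_right _ (by omega)
          omega
      _ ≤ T * B := mul_le_mul_of_nonneg_left hABv hb'
  rw [hn] at h6
  push_cast at h6
  omega

/-- Base change of vectors. -/
def bc (k' : Type) [Field k'] [Algebra k k'] (x : Fin 2 → k) : Fin 2 → k' :=
  fun i => algebraMap k k' (x i)

omit [NumberField k] in
theorem wedge_bc (k' : Type) [Field k'] [Algebra k k'] (x y : Fin 2 → k) :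
    wedge (bc k' x) (bc k' y) = algebraMap k k' (wedge x y) := by
  simp only [wedge, bc, map_sub, map_mul]

omit [NumberField k] in
theorem bc_ne_zero (k' : Type) [Field k'] [Algebra k k'] (x : Fin 2 → k) (hx : x ≠ 0) :
    bc k' x ≠ 0 := by
  intro h
  apply hx
  funext i
  have := congrFun h i
  exact (map_eq_zero (algebraMap k k')).1 this

/-- Base change of points. -/
noncomputable def bcp (k' : Type) [Field k'] [Algebra k k'] : P1 k → P1 k' :=
  pmap (bc k') (bc_ne_zero k')

omit [NumberField k] in
theorem bcp_mk (k' : Type) [Field k'] [Algebra k k'] (x : Fin 2 → k) (hx : x ≠ 0) :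
    bcp k' (Projectivization.mk k x hx) = Projectivization.mk k' (bc k' x) (bc_ne_zero k' x hx) := by
  rw [bcp, pmap, mk_eq_iff, wedge_bc, map_eq_zero]
  rw [← mk_eq_iff (Projectivization.rep_nonzero _) hx, Projectivization.mk_rep]

omit [NumberField k] in
theorem bcp_injective (k' : Type) [Field k'] [Algebra k k'] :
    Function.Injective (bcp k' : P1 k → P1 k') := by
  apply pmap_injective
  intro x y h
  rw [wedge_bc, map_eq_zero] at h
  exact h

omit [NumberField k] in
theorem bcp_pt (k' : Type) [Field k'] [Algebra k k'] (a : k) :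
    bcp k' (pt a) = pt (algebraMap k k' a) := by
  rw [pt, bcp_mk, pt]
  congr 1
  funext i
  fin_cases i <;> simp [bc]

omit [NumberField k] in
theorem bcp_inf (k' : Type) [Field k'] [Algebra k k'] :
    bcp k' (inf : P1 k) = inf := by
  rw [inf, bcp_mk, inf]
  congr 1
  funext i
  fin_cases i <;> simp [bc]

theorem vmax_bc {k' : Type} [Field k'] [NumberField k'] [Algebra k k']
    {w : HeightOneSpectrum (𝓞 k')} {v : HeightOneSpectrum (𝓞 k)} {e : ℕ}
    (h : ∀ x : k, w.valuation k' (algebraMap k k' x) = v.valuation k x ^ e) (x : Fin 2 → k) :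
    vmax w (bc k' x) = vmax v x ^ e := by
  simp only [vmax, bc, h]
  exact ((pow_left_mono e).map_max (a := v.valuation k (x 0)) (b := v.valuation k (x 1))).symm

theorem ivec_bc {k' : Type} [Field k'] [NumberField k'] [Algebra k k']
    {w : HeightOneSpectrum (𝓞 k')} {v : HeightOneSpectrum (𝓞 k)} {e : ℕ}
    (h : ∀ x : k, w.valuation k' (algebraMap k k' x) = v.valuation k x ^ e) (x y : Fin 2 → k) :
    ivec w (bc k' x) (bc k' y) = e * ivec v x y := by
  simp only [ivec, vmax_bc h, wedge_bc, h, log_pow, nsmul_eq_mul]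
  ring

/-- Removal of the exceptional places. -/
theorem finite_of_bc {M : Set (HeightOneSpectrum (𝓞 k))} (hM : M.Finite) {r : ℕ}
    (P : Fin r → P1 k) (t : Fin r → ℕ)
    (h : ∀ (k' : Type) [Field k'] [NumberField k'] [Algebra k k'],
      (orbPoints (∅ : Set (HeightOneSpectrum (𝓞 k'))) (fun i => bcp k' (P i))
        (fun i => (t i : ℕ∞))).Finite) :
    (orbPoints M P (fun i => (t i : ℕ∞))).Finite := by
  obtain ⟨k', _, _, _, hk'⟩ := exists_ramified M hM (∑ i, t i)
  refine Set.Finite.of_injOn (f := bcp k') ?_ (bcp_injective k').injOn (h k')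
  intro X hX
  rw [← Projectivization.mk_rep X, mem_orb_iff'] at hX
  obtain ⟨h1, h2⟩ := hX
  simp only [bcp, pmap]
  rw [mem_orb_iff]
  refine ⟨fun i => ?_, fun w _ i => ?_⟩
  · rw [wedge_bc, Ne, map_eq_zero]
    exact h1 i
  · obtain ⟨v, e, he1, hval, heM⟩ := hk' w
    rw [ivec_bc hval]
    have hnn : 0 ≤ ivec v X.rep (P i).rep := ivec_nonneg v (h1 i)
    by_cases hz : ivec v X.rep (P i).rep = 0
    · left; rw [hz, mul_zero]
    · right
      have hpos : 1 ≤ ivec v X.rep (P i).rep := by omega
      by_cases hvM : v ∈ M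
      · have h3 := heM hvM
        have h4 : t i ≤ ∑ i, t i := Finset.single_le_sum (fun _ _ => Nat.zero_le _) (Finset.mem_univ i)
        have h5 : (t i : ℤ) ≤ e := by exact_mod_cast h4.trans h3
        nlinarith
      · have h3 := (h2 v hvM i).resolve_left hz
        have h4 : (1 : ℤ) ≤ e := by exact_mod_cast he1
        nlinarith

end

end OrbiP1
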