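import Pool.Agent.Lib_helper58.Orbi.Quad

open NumberField IsDedekindDomain WithZero
open scoped LinearAlgebra.Projectivization

namespace OrbiP1

/-! ### Weights -/

theorem wt_nat (n : ℕ) : wt (n : ℕ∞) = 1 - 1 / (n : ℚ) := by
  rw [wt, if_neg (ENat.coe_ne_top n), ENat.toNat_coe]

theorem wt_le_one (m : ℕ∞) : wt m ≤ 1 := by
  unfold wt
  split_ifs
  · exact le_refl _
  · have : (0 : ℚ) ≤ 1 / (m.toNat : ℚ) := by positivity
    linarith

theorem wt_le {m : ℕ∞} {n : ℕ} (h1 : 2 ≤ m) (h2 : m ≤ n) : wt m ≤ 1 - 1 / (n : ℚ) := by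
  have hm : m ≠ ⊤ := fun h => by
    rw [h] at h2
    exact ENat.coe_ne_top n (top_le_iff.1 h2)
  lift m to ℕ using hm
  rw [wt_nat]
  have h3 : 2 ≤ m := by exact_mod_cast h1
  have h4 : m ≤ n := by exact_mod_cast h2
  have h5 : (0 : ℚ) < m := by
    have : 0 < m := by omega
    exact_mod_cast this
  have h6 : (m : ℚ) ≤ n := by exact_mod_cast h4
  have := one_div_le_one_div_of_le h5 h6
  linarith

theorem lt_succ_le {m : ℕ∞} {n : ℕ} (h : ¬ ((n + 1 : ℕ) : ℕ∞) ≤ m) : m ≤ (n : ℕ∞) := by
  have h1 : m < ((n + 1 : ℕ) : ℕ∞) := not_le.1 h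
  have hm : m ≠ ⊤ := ne_top_of_lt h1
  lift m to ℕ using hm
  have h2 : m < n + 1 := by exact_mod_cast h1
  exact_mod_cast Nat.lt_succ_iff.1 h2

/-- The combinatorial part: the minimal signatures of general type. -/
theorem comb {r : ℕ} (m : Fin r → ℕ∞) (hm : ∀ i, 2 ≤ m i) (hdeg : 0 < -2 + ∑ i, wt (m i)) :
    (∃ j : Fin 5 → Fin r, Function.Injective j) ∨
    (∃ j : Fin 4 → Fin r, Function.Injective j ∧
      ∀ a, (((![2, 2, 2, 3] : Fin 4 → ℕ) a : ℕ) : ℕ∞) ≤ m (j a)) ∨
    (∃ j : Fin 3 → Fin r, Function.Injective j ∧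
      ((∀ a, (((![2, 3, 7] : Fin 3 → ℕ) a : ℕ) : ℕ∞) ≤ m (j a)) ∨
       (∀ a, (((![2, 4, 5] : Fin 3 → ℕ) a : ℕ) : ℕ∞) ≤ m (j a)) ∨
       (∀ a, (((![3, 3, 4] : Fin 3 → ℕ) a : ℕ) : ℕ∞) ≤ m (j a)))) := by
  by_cases h5 : 5 ≤ r
  · left
    exact ⟨Fin.castLE h5, Fin.castLE_injective h5⟩
  right
  by_cases h4 : r = 4
  · left
    subst h4
    have : ∃ i, ((2 + 1 : ℕ) : ℕ∞) ≤ m i := by
      by_contra hcon
      push Not at hcon
      have h1 : ∀ i, wt (m i) ≤ 1 - 1 / ((2 : ℕ) : ℚ) := fun i =>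
        wt_le (hm i) (lt_succ_le (not_le.2 (hcon i)))
      have := Finset.sum_le_sum (fun i (_ : i ∈ (Finset.univ : Finset (Fin 4))) => h1 i)
      simp only [Finset.sum_const, Finset.card_univ, Fintype.card_fin] at this
      norm_num at this
      linarith
    obtain ⟨i, hi⟩ := this
    refine ⟨Equiv.swap 3 i, (Equiv.swap 3 i).injective, fun a => ?_⟩
    by_cases ha : a = 3
    · subst ha
      rw [Equiv.swap_apply_left]
      exact hi
    · have : (![2, 2, 2, 3] : Fin 4 → ℕ) a = 2 := by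
        fin_cases a
        · rfl
        · rfl
        · rfl
        · exact absurd rfl ha
      rw [this]
      exact hm _
  by_cases h3 : r = 3
  · right
    subst h3
    have hs := Tuple.monotone_sort m
    set σ := Tuple.sort m
    have hsum : ∑ i, wt (m i) = wt (m (σ 0)) + wt (m (σ 1)) + wt (m (σ 2)) := by
      rw [← Equiv.sum_comp σ (fun i => wt (m i)), Fin.sum_univ_three]
    rw [hsum] at hdeg
    have h01 : m (σ 0) ≤ m (σ 1) := hs (by decide)
    have h12 : m (σ 1) ≤ m (σ 2) := hs (by decide)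
    refine ⟨σ, σ.injective, ?_⟩
    have ha := hm (σ 0)
    have hb := hm (σ 1)
    have hc := hm (σ 2)
    have key : ∀ t : Fin 3 → ℕ, ((t 0 : ℕ) : ℕ∞) ≤ m (σ 0) → ((t 1 : ℕ) : ℕ∞) ≤ m (σ 1) →
        ((t 2 : ℕ) : ℕ∞) ≤ m (σ 2) → ∀ a, ((t a : ℕ) : ℕ∞) ≤ m (σ a) := by
      intro t h0 h1 h2 a
      fin_cases a
      · exact h0
      · exact h1
      · exact h2
    by_cases a3 : ((2 + 1 : ℕ) : ℕ∞) ≤ m (σ 0)
    · right; right
      apply key _ a3 (le_trans a3 h01)
      by_contra c4
      have c3 := lt_succ_le (n := 3) c4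
      have w2 := wt_le hc c3
      have w1 := wt_le hb (h12.trans c3)
      have w0 := wt_le ha (h01.trans (h12.trans c3))
      norm_num at w0 w1 w2
      linarith
    · have a2 := lt_succ_le a3
      have w0 := wt_le ha a2
      by_cases b3 : ((2 + 1 : ℕ) : ℕ∞) ≤ m (σ 1)
      · by_cases b4 : ((3 + 1 : ℕ) : ℕ∞) ≤ m (σ 1)
        · right; left
          apply key _ ha b4
          by_contra c5
          have c4 := lt_succ_le (n := 4) c5
          have w2 := wt_le hc c4
          have w1 := wt_le hb (h12.trans c4)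
          norm_num at w0 w1 w2
          linarith
        · left
          apply key _ ha b3
          by_contra c7
          have c6 := lt_succ_le (n := 6) c7
          have w2 := wt_le hc c6
          have w1 := wt_le hb (lt_succ_le b4)
          norm_num at w0 w1 w2
          linarith
      · exfalso
        have w1 := wt_le hb (lt_succ_le b3)
        have w2 := wt_le_one (m (σ 2))
        norm_num at w0 w1
        linarith
  · exfalso
    have h2 : r ≤ 2 := by omega
    have := Finset.sum_le_sum (fun i (_ : i ∈ (Finset.univ : Finset (Fin r))) => wt_le_one (m i))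
    simp only [Finset.sum_const, Finset.card_univ, Fintype.card_fin, nsmul_eq_mul, mul_one] at this
    have h6 : (r : ℚ) ≤ 2 := by exact_mod_cast h2
    linarith

/-! ### The four families -/

/-- Finiteness for one signature, over all number fields, all finite sets of places and all
supports. -/
def FinAll {s : ℕ} (t : Fin s → ℕ) : Prop :=
  ∀ (k : Type) [Field k] [NumberField k] (M : Set (HeightOneSpectrum (𝓞 k))), M.Finite →
    ∀ P : Fin s → P1 k, Function.Injective P → (orbPoints M P (fun i => (t i : ℕ∞))).Finite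

theorem cast237 : (fun i => (((![2, 3, 7] : Fin 3 → ℕ) i : ℕ) : ℕ∞)) = ![2, 3, 7] := by
  funext i; fin_cases i <;> rfl

theorem cast245 : (fun i => (((![2, 4, 5] : Fin 3 → ℕ) i : ℕ) : ℕ∞)) = ![2, 4, 5] := by
  funext i; fin_cases i <;> rfl

theorem cast2223 : (fun i => (((![2, 2, 2, 3] : Fin 4 → ℕ) i : ℕ) : ℕ∞)) = ![2, 2, 2, 3] := by
  funext i; fin_cases i <;> rfl

theorem cast22222 : (fun i => (((![2, 2, 2, 2, 2] : Fin 5 → ℕ) i : ℕ) : ℕ∞)) =
    ![2, 2, 2, 2, 2] := by
  funext i; fin_cases i <;> rfl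

theorem finAll_three {t : Fin 3 → ℕ}
    (H : ∀ (k : Type) [Field k] [NumberField k],
      (orbPoints (∅ : Set (HeightOneSpectrum (𝓞 k))) ![pt 0, pt 1, inf]
        (fun i => (t i : ℕ∞))).Finite) : FinAll t := by
  intro k _ _ M hM P hP
  refine finite_general (i0 := 0) (i1 := 1) (i2 := 2) (by decide) (by decide) (by decide) t
    ?_ k M hM P hP
  intro k _ _ P _ h0 h1 h2
  have : P = ![pt 0, pt 1, inf] := by
    funext i
    fin_cases i
    · exact h0
    · exact h1
    · exact h2
  rw [this]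
  exact H k

theorem finAll_four {t : Fin 4 → ℕ}
    (H : ∀ (k : Type) [Field k] [NumberField k] (a : k), a ≠ 0 → a ≠ 1 →
      (orbPoints (∅ : Set (HeightOneSpectrum (𝓞 k))) ![pt 0, pt 1, inf, pt a]
        (fun i => (t i : ℕ∞))).Finite) : FinAll t := by
  intro k _ _ M hM P hP
  refine finite_general (i0 := 0) (i1 := 1) (i2 := 2) (by decide) (by decide) (by decide) t
    ?_ k M hM P hP
  intro k _ _ P hP h0 h1 h2
  obtain ⟨a, ha⟩ := exists_pt (X := P 3) (by rw [← h2]; exact hP.ne (by decide))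
  have : P = ![pt 0, pt 1, inf, pt a] := by
    funext i
    fin_cases i
    · exact h0
    · exact h1
    · exact h2
    · exact ha
  rw [this]
  apply H k a
  · rintro rfl
    exact hP.ne (show (3 : Fin 4) ≠ 0 by decide) (by rw [ha, h0])
  · rintro rfl
    exact hP.ne (show (3 : Fin 4) ≠ 1 by decide) (by rw [ha, h1])

theorem finAll_five {t : Fin 5 → ℕ}
    (H : ∀ (k : Type) [Field k] [NumberField k] (a b : k), a ≠ 0 → a ≠ 1 → b ≠ 0 → b ≠ 1 → a ≠ b →
      (orbPoints (∅ : Set (HeightOneSpectrum (𝓞 k))) ![pt 0, pt 1, inf, pt a, pt b]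
        (fun i => (t i : ℕ∞))).Finite) : FinAll t := by
  intro k _ _ M hM P hP
  refine finite_general (i0 := 0) (i1 := 1) (i2 := 2) (by decide) (by decide) (by decide) t
    ?_ k M hM P hP
  intro k _ _ P hP h0 h1 h2
  obtain ⟨a, ha⟩ := exists_pt (X := P 3) (by rw [← h2]; exact hP.ne (by decide))
  obtain ⟨b, hb⟩ := exists_pt (X := P 4) (by rw [← h2]; exact hP.ne (by decide))
  have : P = ![pt 0, pt 1, inf, pt a, pt b] := by
    funext i
    fin_cases i
    · exact h0
    · exact h1
    · exact h2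
    · exact ha
    · exact hb
  rw [this]
  apply H k a b
  · rintro rfl
    exact hP.ne (show (3 : Fin 5) ≠ 0 by decide) (by rw [ha, h0])
  · rintro rfl
    exact hP.ne (show (3 : Fin 5) ≠ 1 by decide) (by rw [ha, h1])
  · rintro rfl
    exact hP.ne (show (4 : Fin 5) ≠ 0 by decide) (by rw [hb, h0])
  · rintro rfl
    exact hP.ne (show (4 : Fin 5) ≠ 1 by decide) (by rw [hb, h1])
  · rintro rfl
    exact hP.ne (show (3 : Fin 5) ≠ 4 by decide) (by rw [ha, hb])

section inj

variable {k : Type} [Field k]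

theorem inj_three {a b : k} (h : a ≠ b) :
    Function.Injective (![pt a, pt b, inf] : Fin 3 → P1 k) := by
  intro i j hij
  fin_cases i <;> fin_cases j
  · rfl
  · exact absurd (pt_injective hij) h
  · exact absurd hij (pt_ne_inf _)
  · exact absurd (pt_injective hij) h.symm
  · rfl
  · exact absurd hij (pt_ne_inf _)
  · exact absurd hij.symm (pt_ne_inf _)
  · exact absurd hij.symm (pt_ne_inf _)
  · rfl

theorem inj_snoc {s : ℕ} {P : Fin s → P1 k} (hP : Function.Injective P) {X : P1 k}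
    (hX : ∀ i, P i ≠ X) : Function.Injective (Fin.snoc (α := fun _ => P1 k) P X) := by
  intro i j
  refine Fin.lastCases ?_ (fun i' => ?_) i <;> refine Fin.lastCases ?_ (fun j' => ?_) j
  · intro _; rfl
  · intro h
    rw [Fin.snoc_last, Fin.snoc_castSucc] at h
    exact absurd h.symm (hX _)
  · intro h
    rw [Fin.snoc_last, Fin.snoc_castSucc] at h
    exact absurd h (hX _)
  · intro h
    rw [Fin.snoc_castSucc, Fin.snoc_castSucc] at h
    rw [hP h]

theorem inj_four {a : k} (h0 : a ≠ 0) (h1 : a ≠ 1) :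
    Function.Injective (![pt 0, pt 1, inf, pt a] : Fin 4 → P1 k) := by
  have : (![pt 0, pt 1, inf, pt a] : Fin 4 → P1 k) =
      Fin.snoc (α := fun _ => P1 k) (![pt 0, pt 1, inf] : Fin 3 → P1 k) (pt a) := by
    funext i; fin_cases i <;> rfl
  rw [this]
  refine inj_snoc (inj_three zero_ne_one) (fun i => ?_)
  fin_cases i
  · exact fun h => h0 (pt_injective h).symm
  · exact fun h => h1 (pt_injective h).symm
  · exact fun h => (pt_ne_inf a) h.symm

theorem inj_five {a b : k} (h0 : a ≠ 0) (h1 : a ≠ 1) (g0 : b ≠ 0) (g1 : b ≠ 1) (hab : a ≠ b) :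
    Function.Injective (![pt 0, pt 1, inf, pt a, pt b] : Fin 5 → P1 k) := by
  have : (![pt 0, pt 1, inf, pt a, pt b] : Fin 5 → P1 k) =
      Fin.snoc (α := fun _ => P1 k) (![pt 0, pt 1, inf, pt a] : Fin 4 → P1 k) (pt b) := by
    funext i; fin_cases i <;> rfl
  rw [this]
  refine inj_snoc (inj_four h0 h1) (fun i => ?_)
  fin_cases i
  · exact fun h => g0 (pt_injective h).symm
  · exact fun h => g1 (pt_injective h).symm
  · exact fun h => (pt_ne_inf b) h.symm
  · exact fun h => hab (pt_injective h)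

end inj

theorem FinAll.of_orbifoldMordell (h : OrbifoldMordell) {s : ℕ} (t : Fin s → ℕ)
    (ht : ∀ i, 2 ≤ t i) (hd : (2 : ℚ) < ∑ i, (1 - 1 / (t i : ℚ))) (k : Type) [Field k]
    [NumberField k] (P : Fin s → P1 k) (hP : Function.Injective P) :
    (orbPoints (∅ : Set (HeightOneSpectrum (𝓞 k))) P (fun i => (t i : ℕ∞))).Finite := by
  apply h k ∅ Set.finite_empty s P _ hP
  · intro i
    exact_mod_cast ht i
  · simp only [wt_nat]
    linarith

/-- The orbifold Mordell conjecture for the projective line is equivalent to its minimal cases. -/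
theorem orbifoldMordell_iff : OrbifoldMordell ↔ ∀ (k : Type) [Field k] [NumberField k],
    (orbPoints (∅ : Set (HeightOneSpectrum (𝓞 k))) ![pt 0, pt 1, inf] ![2, 3, 7]).Finite ∧
    (orbPoints (∅ : Set (HeightOneSpectrum (𝓞 k))) ![pt 0, pt 1, inf] ![2, 4, 5]).Finite ∧
    (∀ a : k, a ≠ 0 → a ≠ 1 → (orbPoints (∅ : Set (HeightOneSpectrum (𝓞 k)))
      ![pt 0, pt 1, inf, pt a] ![2, 2, 2, 3]).Finite) ∧
    (∀ a b : k, a ≠ 0 → a ≠ 1 → b ≠ 0 → b ≠ 1 → a ≠ b →
      (orbPoints (∅ : Set (HeightOneSpectrum (𝓞 k)))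
        ![pt 0, pt 1, inf, pt a, pt b] ![2, 2, 2, 2, 2]).Finite) := by
  constructor
  · intro h k _ _
    refine ⟨?_, ?_, ?_, ?_⟩
    · rw [← cast237]
      refine FinAll.of_orbifoldMordell h _ (by decide) ?_ k _ (inj_three zero_ne_one)
      simp [Fin.sum_univ_succ]
      norm_num
    · rw [← cast245]
      refine FinAll.of_orbifoldMordell h _ (by decide) ?_ k _ (inj_three zero_ne_one)
      simp [Fin.sum_univ_succ]
      norm_num
    · intro a h0 h1
      rw [← cast2223]
      refine FinAll.of_orbifoldMordell h _ (by decide) ?_ k _ (inj_four h0 h1)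
      simp [Fin.sum_univ_succ]
      norm_num
    · intro a b h0 h1 g0 g1 hab
      rw [← cast22222]
      refine FinAll.of_orbifoldMordell h _ (by decide) ?_ k _ (inj_five h0 h1 g0 g1 hab)
      simp [Fin.sum_univ_succ]
      norm_num
  · intro H k _ _ M hM r P m hP hm hdeg
    have f237 : FinAll ![2, 3, 7] := by
      apply finAll_three
      intro k _ _
      rw [cast237]
      exact (H k).1
    have f245 : FinAll ![2, 4, 5] := by
      apply finAll_three
      intro k _ _
      rw [cast245]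
      exact (H k).2.1
    have f2223 : FinAll ![2, 2, 2, 3] := by
      apply finAll_four
      intro k _ _ a h0 h1
      rw [cast2223]
      exact (H k).2.2.1 a h0 h1
    have f22222 : FinAll ![2, 2, 2, 2, 2] := by
      apply finAll_five
      intro k _ _ a b h0 h1 g0 g1 hab
      rw [cast22222]
      exact (H k).2.2.2 a b h0 h1 g0 g1 hab
    have f334 : FinAll ![3, 3, 4] := by
      apply finAll_three
      intro k _ _
      exact finite_334 (fun M hM => f237 k M hM _ (inj_three one_ne_zero)) ∅ Set.finite_empty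
    rcases comb m hm hdeg with ⟨j, hj⟩ | ⟨j, hj, h⟩ | ⟨j, hj, h | h | h⟩
    · refine (f22222 k M hM (P ∘ j) (hP.comp hj)).subset (orb_mono M P m j _ fun a => ?_)
      have : (![2, 2, 2, 2, 2] : Fin 5 → ℕ) a = 2 := by fin_cases a <;> rfl
      rw [this]
      exact hm _
    · exact (f2223 k M hM (P ∘ j) (hP.comp hj)).subset (orb_mono M P m j _ h)
    · exact (f237 k M hM (P ∘ j) (hP.comp hj)).subset (orb_mono M P m j _ h)
    · exact (f245 k M hM (P ∘ j) (hP.comp hj)).subset (orb_mono M P m j _ h)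
    · exact (f334 k M hM (P ∘ j) (hP.comp hj)).subset (orb_mono M P m j _ h)

end OrbiP1
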