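import Pool.Agent.Lib_helper58.Orbi.Ext

open NumberField IsDedekindDomain WithZero
open scoped LinearAlgebra.Projectivization

namespace OrbiP1

section

variable {k : Type} [Field k] [NumberField k]

omit [NumberField k] in
theorem wedge_rep_ne {X Y : P1 k} (h : X ≠ Y) : wedge X.rep Y.rep ≠ 0 := by
  intro h2
  apply h
  rw [← mk_eq_iff X.rep_nonzero Y.rep_nonzero, Projectivization.mk_rep,
    Projectivization.mk_rep] at h2
  exact h2

omit [NumberField k] in
theorem exists_gl {X Y Z : P1 k} (hXY : X ≠ Y) (hXZ : X ≠ Z) (hYZ : Y ≠ Z) :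
    ∃ (a b c d : k) (hD : a * d - b * c ≠ 0),
      pmap (gl a b c d) (gl_ne_zero hD) X = pt 0 ∧ pmap (gl a b c d) (gl_ne_zero hD) Y = pt 1 ∧
        pmap (gl a b c d) (gl_ne_zero hD) Z = inf := by
  have h1 := wedge_rep_ne hXY.symm
  have h2 := wedge_rep_ne hXZ
  have h3 := wedge_rep_ne hYZ
  set q0 := X.rep
  set q1 := Y.rep
  set q2 := Z.rep
  have hD : (wedge q1 q2 * q0 1) * (-(wedge q1 q0 * q2 0)) -
      (-(wedge q1 q2 * q0 0)) * (wedge q1 q0 * q2 1) ≠ 0 := by
    have : (wedge q1 q2 * q0 1) * (-(wedge q1 q0 * q2 0)) -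
      (-(wedge q1 q2 * q0 0)) * (wedge q1 q0 * q2 1) = wedge q1 q2 * wedge q1 q0 * wedge q0 q2 := by
      simp only [wedge]; ring
    rw [this]
    exact mul_ne_zero (mul_ne_zero h3 h1) h2
  refine ⟨wedge q1 q2 * q0 1, -(wedge q1 q2 * q0 0), wedge q1 q0 * q2 1, -(wedge q1 q0 * q2 0), hD,
    ?_, ?_, ?_⟩
  · rw [pmap, pt, mk_eq_iff]
    simp only [wedge, gl, Matrix.cons_val_zero, Matrix.cons_val_one]
    show _ * (1 : k) - _ * (0 : k) = 0
    ring
  · rw [pmap, pt, mk_eq_iff]
    simp only [wedge, gl, Matrix.cons_val_zero, Matrix.cons_val_one]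
    show _ * (1 : k) - _ * (1 : k) = 0
    ring
  · rw [pmap, inf, mk_eq_iff]
    simp only [wedge, gl, Matrix.cons_val_zero, Matrix.cons_val_one]
    show _ * (0 : k) - _ * (1 : k) = 0
    ring

omit [NumberField k] in
theorem exists_pt {X : P1 k} (h : X ≠ inf) : ∃ a : k, X = pt a := by
  have h1 : wedge X.rep ![1, 0] ≠ 0 := by
    intro h2
    apply h
    rw [← mk_eq_iff X.rep_nonzero (fun h => one_ne_zero (α := k) (by simpa using congrFun h 0)),
      Projectivization.mk_rep] at h2
    exact h2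
  have h2 : X.rep 1 ≠ 0 := by
    intro h2
    apply h1
    simp [wedge, h2]
  refine ⟨X.rep 0 / X.rep 1, ?_⟩
  conv_lhs => rw [← Projectivization.mk_rep X]
  rw [pt, mk_eq_iff]
  simp only [wedge, Matrix.cons_val_zero, Matrix.cons_val_one]
  field_simp
  ring

omit [NumberField k] in
theorem pt_injective : Function.Injective (pt : k → P1 k) := by
  intro a b h
  rw [pt, pt, mk_eq_iff] at h
  simp only [wedge, Matrix.cons_val_zero, Matrix.cons_val_one] at h
  linear_combination h

omit [NumberField k] in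
theorem pt_ne_inf (a : k) : pt a ≠ inf := by
  intro h
  rw [pt, inf, mk_eq_iff] at h
  simp [wedge] at h

end

/-- Reduction to the normal form and to the empty set of exceptional places. -/
theorem finite_general {r : ℕ} {i0 i1 i2 : Fin r} (h01 : i0 ≠ i1) (h02 : i0 ≠ i2) (h12 : i1 ≠ i2)
    (t : Fin r → ℕ)
    (H : ∀ (k : Type) [Field k] [NumberField k] (P : Fin r → P1 k), Function.Injective P →
      P i0 = pt 0 → P i1 = pt 1 → P i2 = inf →
      (orbPoints (∅ : Set (HeightOneSpectrum (𝓞 k))) P (fun i => (t i : ℕ∞))).Finite)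
    (k : Type) [Field k] [NumberField k] (M : Set (HeightOneSpectrum (𝓞 k))) (hM : M.Finite)
    (P : Fin r → P1 k) (hP : Function.Injective P) :
    (orbPoints M P (fun i => (t i : ℕ∞))).Finite := by
  obtain ⟨a, b, c, d, hD, h0, h1, h2⟩ := exists_gl (hP.ne h01) (hP.ne h02) (hP.ne h12)
  apply finite_of_gl hD
  apply finite_of_bc
  · exact hM.union ((((finite_bad a).union (finite_bad b)).union
      ((finite_bad c).union (finite_bad d))).union (finite_ne_one hD))
  · intro k' _ _ _
    apply H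
    · intro i j hij
      apply hP
      apply pmap_injective (gl a b c d) (gl_ne_zero hD) (fun x y hxy => ?_)
      · exact bcp_injective k' hij
      · rw [wedge_gl] at hxy
        exact (mul_eq_zero.1 hxy).resolve_left hD
    · simp only [h0, bcp_pt, map_zero]
    · simp only [h1, bcp_pt, map_one]
    · simp only [h2, bcp_inf]

end OrbiP1
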