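import Pool.Agent.Lib_helper58.Orbi.Norm

open NumberField IsDedekindDomain WithZero
open scoped LinearAlgebra.Projectivization

namespace OrbiP1

section

variable {k : Type} [Field k] [NumberField k]

theorem vmax_pt (v : HeightOneSpectrum (𝓞 k)) (z : k) :
    vmax v ![z, 1] = max (v.valuation k z) 1 := by
  simp [vmax]

theorem ivec_zero (v : HeightOneSpectrum (𝓞 k)) (z : k) :
    ivec v ![z, 1] ![0, 1] = -log (v.valuation k z) + log (max (v.valuation k z) 1) := by
  simp [ivec, wedge, vmax]

theorem ivec_one (v : HeightOneSpectrum (𝓞 k)) (z : k) :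
    ivec v ![z, 1] ![1, 1] = -log (v.valuation k (z - 1)) + log (max (v.valuation k z) 1) := by
  simp [ivec, wedge, vmax]

theorem ivec_inf (v : HeightOneSpectrum (𝓞 k)) (z : k) :
    ivec v ![z, 1] ![1, 0] = log (max (v.valuation k z) 1) := by
  simp [ivec, wedge, vmax]

theorem val_one_sub (v : HeightOneSpectrum (𝓞 k)) {z : k} (hz : 1 < v.valuation k z) :
    v.valuation k (z - 1) = v.valuation k z := by
  rw [sub_eq_add_neg]
  apply Valuation.map_add_eq_of_lt_left
  rw [Valuation.map_neg, map_one]
  exact hz

/-- The local computation for the map `z ↦ 4 z (1 - z)`. -/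
theorem local_quad (v : HeightOneSpectrum (𝓞 k)) (h2 : v.valuation k 2 = 1) {z : k}
    (hz0 : z ≠ 0) (hz1 : z - 1 ≠ 0) (hzh : 2 * z - 1 ≠ 0)
    (c0 : ivec v ![z, 1] ![0, 1] = 0 ∨ (3 : ℤ) ≤ ivec v ![z, 1] ![0, 1])
    (c1 : ivec v ![z, 1] ![1, 1] = 0 ∨ (3 : ℤ) ≤ ivec v ![z, 1] ![1, 1])
    (ci : ivec v ![z, 1] ![1, 0] = 0 ∨ (4 : ℤ) ≤ ivec v ![z, 1] ![1, 0]) :
    (ivec v ![4 * z * (1 - z), 1] ![1, 1] = 0 ∨ (2 : ℤ) ≤ ivec v ![4 * z * (1 - z), 1] ![1, 1]) ∧
    (ivec v ![4 * z * (1 - z), 1] ![0, 1] = 0 ∨ (3 : ℤ) ≤ ivec v ![4 * z * (1 - z), 1] ![0, 1]) ∧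
    (ivec v ![4 * z * (1 - z), 1] ![1, 0] = 0 ∨ (7 : ℤ) ≤ ivec v ![4 * z * (1 - z), 1] ![1, 0]) := by
  rw [ivec_zero] at c0
  rw [ivec_one] at c1
  rw [ivec_inf] at ci
  rw [ivec_zero, ivec_one, ivec_inf]
  have h4 : v.valuation k 4 = 1 := by
    have : (4 : k) = 2 * 2 := by norm_num
    rw [this, map_mul, h2, one_mul]
  have hvz : v.valuation k z ≠ 0 := (Valuation.ne_zero_iff _).2 hz0
  have hvz1 : v.valuation k (z - 1) ≠ 0 := (Valuation.ne_zero_iff _).2 hz1
  have hvh : v.valuation k (2 * z - 1) ≠ 0 := (Valuation.ne_zero_iff _).2 hzh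
  have hf : v.valuation k (4 * z * (1 - z)) = v.valuation k z * v.valuation k (z - 1) := by
    rw [map_mul, map_mul, h4, one_mul, Valuation.map_sub_swap]
  have hf1 : v.valuation k (4 * z * (1 - z) - 1) = v.valuation k (2 * z - 1) ^ 2 := by
    have : 4 * z * (1 - z) - 1 = -(2 * z - 1) ^ 2 := by ring
    rw [this, Valuation.map_neg, map_pow]
  rw [hf, hf1, log_pow, log_mul hvz hvz1]
  simp only [nsmul_eq_mul, Nat.cast_ofNat]
  rcases lt_or_ge 1 (v.valuation k z) with hlt | hle
  · -- pole
    have e1 := val_one_sub v hlt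
    have e2 : v.valuation k (2 * z - 1) = v.valuation k z := by
      have : v.valuation k (2 * z) = v.valuation k z := by rw [map_mul, h2, one_mul]
      rw [← this]
      apply val_one_sub
      rwa [this]
    have hsq : 1 < v.valuation k z * v.valuation k z := one_lt_mul'' hlt hlt
    rw [e1, e2, max_eq_left hsq.le, log_mul hvz hvz]
    rw [max_eq_left hlt.le] at ci
    have hl : 0 < log (v.valuation k z) := by
      have := (log_lt_log one_ne_zero hvz).2 hlt
      rwa [log_one] at this
    refine ⟨Or.inl (by ring), Or.inl (by ring), Or.inr ?_⟩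
    rcases ci with ci | ci
    · omega
    · omega
  · rw [max_eq_right hle, log_one] at c0 c1
    have hle1 : v.valuation k (z - 1) ≤ 1 :=
      (Valuation.map_sub _ _ _).trans (max_le hle (by rw [map_one]))
    have hleh : v.valuation k (2 * z - 1) ≤ 1 := by
      refine (Valuation.map_sub _ _ _).trans (max_le ?_ (by rw [map_one]))
      rw [map_mul, h2, one_mul]
      exact hle
    have hprod : v.valuation k z * v.valuation k (z - 1) ≤ 1 := mul_le_one' hle hle1
    rw [max_eq_right hprod, log_one]
    have hlh : log (v.valuation k (2 * z - 1)) ≤ 0 := by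
      have := (log_le_log hvh one_ne_zero).2 hleh
      rwa [log_one] at this
    have hl0 : log (v.valuation k z) ≤ 0 := by
      have := (log_le_log hvz one_ne_zero).2 hle
      rwa [log_one] at this
    have hl1 : log (v.valuation k (z - 1)) ≤ 0 := by
      have := (log_le_log hvz1 one_ne_zero).2 hle1
      rwa [log_one] at this
    refine ⟨?_, ?_, Or.inl rfl⟩
    · omega
    · -- at most one of the two is nonzero
      by_cases hzlt : v.valuation k z < 1
      · have : v.valuation k (z - 1) = 1 := by
          rw [← Valuation.map_neg, neg_sub, sub_eq_add_neg]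
          rw [Valuation.map_add_eq_of_lt_left]
          · exact map_one _
          · rwa [Valuation.map_neg, map_one]
        rw [this, log_one] at c1 ⊢
        omega
      · have : v.valuation k z = 1 := le_antisymm hle (not_lt.1 hzlt)
        rw [this, log_one] at c0 ⊢
        omega

/-- The map `z ↦ 4 z (1 - z)` on the affine part. -/
theorem finite_334 (H : ∀ (M : Set (HeightOneSpectrum (𝓞 k))), M.Finite →
      (orbPoints M ![pt 1, pt 0, inf] (fun i => ((![2, 3, 7] : Fin 3 → ℕ) i : ℕ∞))).Finite)
    (M : Set (HeightOneSpectrum (𝓞 k))) (hM : M.Finite) :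
    (orbPoints M ![pt 0, pt 1, inf] (fun i => ((![3, 3, 4] : Fin 3 → ℕ) i : ℕ∞))).Finite := by
  set M' := M ∪ {v | v.valuation k (2 : k) ≠ 1} with hM'
  have hM'f : M'.Finite := hM.union (finite_ne_one two_ne_zero)
  have hT := H M' hM'f
  -- affine coordinates
  set A : Set k := {z | pt z ∈ orbPoints M ![pt 0, pt 1, inf]
    (fun i => ((![3, 3, 4] : Fin 3 → ℕ) i : ℕ∞))} with hA
  have hsub : orbPoints M ![pt 0, pt 1, inf] (fun i => ((![3, 3, 4] : Fin 3 → ℕ) i : ℕ∞)) ⊆
      pt '' A := by
    intro X hX
    have h1 : X ≠ inf := by simpa using hX.1 2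
    obtain ⟨a, rfl⟩ := exists_pt h1
    exact ⟨a, hX, rfl⟩
  refine Set.Finite.subset (Set.Finite.image _ ?_) hsub
  have hsub2 : A ⊆ {(1 / 2 : k)} ∪ (fun z : k => (pt (4 * z * (1 - z)) : P1 k)) ⁻¹'
      (orbPoints M' ![pt 1, pt 0, inf] (fun i => ((![2, 3, 7] : Fin 3 → ℕ) i : ℕ∞))) := by
    intro z hz
    by_cases hzh : 2 * z - 1 = 0
    · left
      rw [Set.mem_singleton_iff]
      field_simp
      linear_combination hzh
    right
    have hz' : pt z ∈ orbPoints M (fun i => Projectivization.mk k
        ((![![0, 1], ![1, 1], ![1, 0]] : Fin 3 → Fin 2 → k) i) (by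
          intro h
          fin_cases i
          · exact one_ne_zero (α := k) (by simpa using congrFun h 1)
          · exact one_ne_zero (α := k) (by simpa using congrFun h 1)
          · exact one_ne_zero (α := k) (by simpa using congrFun h 0)))
        (fun i => ((![3, 3, 4] : Fin 3 → ℕ) i : ℕ∞)) := by
      have hPe : (fun i => Projectivization.mk k
        ((![![0, 1], ![1, 1], ![1, 0]] : Fin 3 → Fin 2 → k) i) (by
          intro h
          fin_cases i
          · exact one_ne_zero (α := k) (by simpa using congrFun h 1)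
          · exact one_ne_zero (α := k) (by simpa using congrFun h 1)
          · exact one_ne_zero (α := k) (by simpa using congrFun h 0))) =
          (![pt 0, pt 1, inf] : Fin 3 → P1 k) := by
        funext i
        fin_cases i <;> rfl
      rw [hPe]
      exact hz
    rw [pt, mem_orb_iff] at hz'
    obtain ⟨g1, g2⟩ := hz'
    have w0 : z ≠ 0 := by
      have := g1 0
      simpa [wedge] using this
    have w1 : z - 1 ≠ 0 := by
      have := g1 1
      simpa [wedge] using this
    rw [Set.mem_preimage]
    have goal' : pt (4 * z * (1 - z)) ∈ orbPoints M' (fun i => Projectivization.mk k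
        ((![![1, 1], ![0, 1], ![1, 0]] : Fin 3 → Fin 2 → k) i) (by
          intro h
          fin_cases i
          · exact one_ne_zero (α := k) (by simpa using congrFun h 1)
          · exact one_ne_zero (α := k) (by simpa using congrFun h 1)
          · exact one_ne_zero (α := k) (by simpa using congrFun h 0)))
        (fun i => ((![2, 3, 7] : Fin 3 → ℕ) i : ℕ∞)) := by
      rw [pt, mem_orb_iff]
      refine ⟨?_, ?_⟩
      · intro i
        fin_cases i
        · simp only [wedge, Matrix.cons_val_zero, Matrix.cons_val_one, Fin.zero_eta]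
          intro h
          apply hzh
          have : (2 * z - 1) ^ 2 = 0 := by linear_combination -h
          exact pow_eq_zero_iff (two_ne_zero) |>.1 this
        · simp only [wedge, Matrix.cons_val_zero, Matrix.cons_val_one, Fin.mk_one]
          intro h
          have h4 : (4 : k) ≠ 0 := by norm_num
          have : 4 * (z * (z - 1)) = 0 := by linear_combination -h
          exact mul_ne_zero h4 (mul_ne_zero w0 w1) this
        · simp [wedge]
      · intro v hv i
        rw [hM'] at hv
        simp only [Set.mem_union, Set.mem_ofPred_eq, not_or, not_not] at hv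
        have q0 := g2 v hv.1 0
        have q1 := g2 v hv.1 1
        have q2 := g2 v hv.1 2
        simp only [Matrix.cons_val_zero, Matrix.cons_val_one, Matrix.cons_val, Nat.cast_ofNat]
          at q0 q1 q2
        obtain ⟨r1, r2, r3⟩ := local_quad v hv.2 w0 w1 hzh q0 q1 q2
        fin_cases i
        · simpa using r1
        · simpa using r2
        · simpa using r3
    have hPe : (fun i => Projectivization.mk k
        ((![![1, 1], ![0, 1], ![1, 0]] : Fin 3 → Fin 2 → k) i) (by
          intro h
          fin_cases i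
          · exact one_ne_zero (α := k) (by simpa using congrFun h 1)
          · exact one_ne_zero (α := k) (by simpa using congrFun h 1)
          · exact one_ne_zero (α := k) (by simpa using congrFun h 0))) =
          (![pt 1, pt 0, inf] : Fin 3 → P1 k) := by
      funext i
      fin_cases i <;> rfl
    rw [hPe] at goal'
    exact goal'
  refine Set.Finite.subset ((Set.finite_singleton _).union (Set.Finite.preimage' hT ?_)) hsub2
  intro Q _
  by_cases hne : ((fun z : k => (pt (4 * z * (1 - z)) : P1 k)) ⁻¹' {Q}).Nonempty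
  · obtain ⟨z0, hz0⟩ := hne
    refine Set.Finite.subset (Set.toFinite {z0, 1 - z0}) ?_
    intro z hz
    have h1 : pt (4 * z * (1 - z)) = Q := hz
    have h2 : pt (4 * z0 * (1 - z0)) = Q := hz0
    have h3 := pt_injective (h1.trans h2.symm)
    have h4 : (z - z0) * (1 - z - z0) = 0 := by
      have h5 : (4 : k) ≠ 0 := by norm_num
      have h6 : 4 * ((z - z0) * (1 - z - z0)) = 0 := by linear_combination h3
      exact (mul_eq_zero.1 h6).resolve_left h5
    rcases mul_eq_zero.1 h4 with h | h
    · left; linear_combination h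
    · right
      rw [Set.mem_singleton_iff]
      linear_combination -h
  · rw [Set.not_nonempty_iff_eq_empty.1 hne]
    exact Set.finite_empty

end

end OrbiP1
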